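import Pool.Agent.N226.TF.Sparse

/-!
# Triangle detection in graphs with few edges needs many reads or much memory

We consider Boolean circuits with AND gates of fan-in two, OR gates of any fan-in and negations at
the inputs, whose inputs are the entries of the adjacency matrix of a graph with `n` vertices. The
formal degree in an input bit is the largest number of leaves with this bit in a proof tree, that is,
the number of times this bit is read. Deterministic and nondeterministic branching programs are such
circuits (the logarithm of the size is the memory; a bit which is read at most `k` times on every path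
has degree at most `k`), and so are programs with a stack.

The circuits have to recognise the triangle-free graphs, and only among the graphs with at most
`5 n / 4` edges, so that the length `s` of the input in the word RAM model is of order `n`. (The graphs
with a triangle are recognised by a disjunction of small conjunctions.) Checking all triples is a
circuit of polynomial size and formal degree `n - 2` in each bit. We show that the size is
`2 ^ Ω (n) = 2 ^ Ω (s)` if the degrees in the `n` bits of ONE vertex `u` (which are the list of the
neighbours of `u`) sum up to `O (n)`, while all the other bits may be read as often as one likes; this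
remains true for circuits with one-sided randomness. In particular this is so if the sum of all
degrees is `O (n ^ 2)`. So algorithms of this kind (such as deterministic word RAM algorithms with
random access to the adjacency matrix) with a memory of `o (s)` bits read the bits of every vertex
more than a constant number of times on average, and with a memory of `O (log s)` bits
`Ω (log s)` times.

The hard graphs consist of a star with centre `u` and a matching, placed at random. The method is
that of `Pool.Agent.W896.FD` (starting library).
-/

set_option autoImplicit false

namespace Pool.Agent.Results.MP_ad5e8e_lc.FormalDegree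

open Pool.Agent.W896.RK Pool.Agent.W896.FD Pool.Agent.N226.TF

/-- `Few G`: the graph `G` with `n` vertices has at most `5 n / 4` edges. `bits G`: the adjacency
matrix.

1. Let `u` be a vertex and `U r` (`r` in a finite nonempty set) circuits none of which accepts a graph
with a triangle and at most `5 n / 4` edges, such that every triangle-free graph with at most `5 n / 4`
edges is accepted by at least a `2 ^ (- ⌊n / 2 ^ (60 (k + 3))⌋)` fraction of them. If in each `U r` the
formal degrees in the bits of the pairs `{u, v}` sum up to at most `k n`, then some `U r` has `g` gates
with `n ≤ 2 ^ (60 (k + 3)) (⌊log₂ g⌋ + 1)`.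

2. If a circuit accepts, among the graphs with at most `5 n / 4` edges, exactly those without a
triangle, and its formal degrees sum up to at most `k n ^ 2`, then it has `g` gates with
`n ≤ 2 ^ (60 (2 k + 3)) (⌊log₂ g⌋ + 1)`. -/
theorem result (k n : ℕ) :
    (∀ (u : Fin n) (R : Type) [Fintype R] [Nonempty R] (U : R → Circ (Sym2 (Fin n))),
      (∀ r G, Few G → (U r).Val (bits G) (U r).out → G.CliqueFree 3) →
      (∀ G : SimpleGraph (Fin n), Few G → G.CliqueFree 3 →
        Nat.card R ≤ 2 ^ (n / 2 ^ (60 * (k + 3))) * Nat.card {r // (U r).Val (bits G) (U r).out}) →
      (∀ r, ∃ d : (U r).G → Sym2 (Fin n) → ℕ, IsDeg (U r) id d ∧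
        ∑ v, d (U r).out s(u, v) ≤ k * n) →
      ∃ r, n ≤ 2 ^ (60 * (k + 3)) * (Nat.log 2 (Fintype.card (U r).G) + 1)) ∧
    ∀ U : Circ (Sym2 (Fin n)), (∀ G, Few G → (U.Val (bits G) U.out ↔ G.CliqueFree 3)) →
      (∃ d : U.G → Sym2 (Fin n) → ℕ, IsDeg U id d ∧ ∑ e, d U.out e ≤ k * n ^ 2) →
      n ≤ 2 ^ (60 * (2 * k + 3)) * (Nat.log 2 (Fintype.card U.G) + 1) :=
  ⟨fun u _ _ _ U hU hc hd => tri_vertex k n u _ U hU hc hd,
    fun U hU hd => tri_total k n U hU hd⟩

end Pool.Agent.Results.MP_ad5e8e_lc.FormalDegree
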