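import Mathlib
import Pool.Agent.N452.TF.Tri

/-!
# Triangle detection: circuits over formulas of bilinear maps of real vectors

The input is a list of the `m` edges of a simple graph on `2 m` vertices (`Simple`); the question is
whether the graph has a triangle (`triangle`). The items of the input are the entries of the list.

*Formulas* (`Fml`). The wires carry vectors of dimension `d` with real coordinates (of unlimited
precision). The leaves are vectors, or matrices which are applied to a vector (`act`), which depend in
an arbitrary way on one entry of the list, or on `w` words of length `c log₂ m`, each of which is an
arbitrary function of one entry. The gates are sums, arbitrary bilinear maps of two vectors (`bil`),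
tests of the sign of a linear form with two arbitrary vectors as results (`test`), and gates `sym` of
any fan-in whose value is an arbitrary function of the number of the inputs for which a linear form is
positive. So products of matrices of order `d` (weighted automata, also quantum automata, with unbounded
error) and the contractions of tensor networks whose intermediate tensors have at most `d` entries are
formulas of this kind; the case `d = 1` contains all real formulas.

*Circuits* (`Circuit`) compute shared bits; each bit is the result of a branching program whose tests
are formulas, and the leaves may also read the bits computed before. A leaf pays one for each entry of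
the list which it reads, and for a shared bit the number of the entries on which the bit depends. The
cost is the sum of the prices of all leaves, plus the number of inner nodes of the branching programs,
plus the number of wires which lead to gates `sym`. All other gates and constants are free.

We show that random circuits with error probability at most `1 / 3` have cost
`s ≥ m ^ 2 / (5400 (w c + d ^ 2))`. In particular the cost is superlinear, at least `m ^ (1 + ε)`, unless
the dimension is at least of order `m ^ ((1 - ε) / 2)`, or many shared bits depend on many edges, as in
fast matrix multiplication.

Proof. By the coding of helper457 (`Pool.Agent.TH457.Ary.Tri`) each entry of the list can ask for about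
`m log₂ m / 4` bits which are encoded in the other entries. We count the functions of this entry which
arise when the others are fixed. If `r` leaves see it or bits which depend on it, there are `O (r)`
places at which other parts enter, and the function of the vector at such a place is an affine map or
a function of the sign of an affine form, so it is given by `O (d ^ 2)` parameters; Warren's theorem
bounds the number of sign patterns, and the values of the shared bits are treated one after the other
(`Pool.Agent.N452.TF.Core`, `Pool.Agent.N452.TF.Prog`; Nechiporuk's method).
-/

set_option autoImplicit false

namespace Pool.Agent.Results.MP_ad5e8e_lc.TensorCircuits

open Pool.Agent.TH697.Form (IsProb)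
open Pool.Agent.TH697.Row (ApproximatesOn)
open Pool.Agent.TH457.Ary.Tri (Edge Simple triangle)
open Pool.Agent.N452.TF (Circuit)

theorem result : ∀ m c w d : ℕ, 1000 ≤ m → 1 ≤ c → 1 ≤ w → 1 ≤ d →
    ∀ (Ω : Type) [Fintype Ω] (μ : Ω → ℝ), IsProb μ →
      ∀ (s : ℕ) (C : Ω → Circuit (Fin m) (fun _ => Edge (2 * m)) w (m ^ c) d),
        (∀ ω, (C ω).circ.cost Finset.univ ≤ s) →
        ApproximatesOn μ (fun ω => (C ω).eval) Simple triangle →
        (m : ℝ) ^ 2 ≤ 5400 * (w * c + (d : ℝ) ^ 2) * s :=
  fun _ _ _ _ hm hc hw hd _ _ μ hμ s C hs hC =>
    Pool.Agent.N452.TF.Tri.bound hm hc hw hd μ hμ s C hs hC

end Pool.Agent.Results.MP_ad5e8e_lc.TensorCircuits
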